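import Pool.Agent.R567.GT4

set_option autoImplicit false

/-!
# A polynomial-time online estimator for the triple uniform (Good-Turing) estimator

Strings over the alphabet `Fin d`, `d ≥ 2`, are lists, in the order of time. `tripleUniform x` is the
number `q_n(x)` of the problem, `n` the length of `x`; `tripleUniformNormalized x` is the same with
the number of partitions of `n` into at most `d` parts (the number of types of strings of length `n`
over `d` symbols) instead of `Part(n)`. It is at least as large as `tripleUniform x`.

For every `d ≥ 2` there is an online estimator `r` with regret at most `2 ln(n + 2)` for all `n`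
against both families, which is computable exactly in polynomial time: a Turing machine computes
from the string two natural numbers with quotient `r(x)`, in time polynomial in the length of the
string.

Proof. Let `N = d!` and let `L` be the Laplace estimator. `r` is a mixture of the marginals of
`q_0, …, q_(N-1)` (each `q_s` is extended to longer strings with the conditional probabilities of
`L`), with weights `1/((s+1)(s+2))`, and of `L`, with weight at least `1/(N+1)`. For `n < N` the bound
follows from the part `s = n`. For all `n` we have `q_n ≤ d! L`, since a type of strings is the type of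
at most `d!` vectors of counts; for `n ≥ N` this gives `q_n ≤ N (N+1) r ≤ (n+2)² r`. The quotient
`r(x) / L(x)` depends only on the first `N` symbols of `x`, so that it is read off a finite table, and
`L(x)` is a quotient of products of factorials.
-/

namespace Pool.Agent.Results.MP_013ca9_lc.GoodTuringOnline

open Pool.Agent.R567.GT Pool.Agent.NPC

/-- The regret `R_n(r ‖ q_n)`: the maximum, over all strings `x` of length `n`, of
`ln (q_n(x) / r(x))`. -/
noncomputable def regret {d : ℕ} (r q : List (Fin d) → ℚ) (n : ℕ) : ℝ :=
  ⨆ f : Fin n → Fin d, Real.log ((q (List.ofFn f) / r (List.ofFn f) : ℚ) : ℝ)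

/-- `r` is computable exactly in polynomial time: some Turing machine (in the sense of Mathlib)
computes from the code of a string `x` the code of a pair `(P, Q)` of natural numbers with
`r x = P / Q`, in time polynomial in the length of the code. A string is coded as the list of its
symbols, numbers are coded in binary. The quotient is exactly `r x`, so it approximates `r x` with
every relative accuracy `ε`, and the running time does not depend on `ε`. -/
def PolyTimeComputable {d : ℕ} (r : List (Fin d) → ℚ) : Prop :=
  ∃ P Q : List (Fin d) → ℕ,
    Nonempty (Turing.TM2ComputableInPolyTime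
      (fun x : List (Fin d) => bits (List.map Fin.val x))
      (fun p : ℕ × ℕ => bits p) (fun x => (P x, Q x))) ∧
    ∀ x, 0 < Q x ∧ r x = (P x : ℚ) / (Q x : ℚ)

theorem regret_le {d : ℕ} (hd : 2 ≤ d) {r q : List (Fin d) → ℚ} (hr : ∀ x, 0 < r x)
    (hq : ∀ x, 0 < q x) (h : ∀ x, q x ≤ ((x.length : ℚ) + 2) ^ 2 * r x) (n : ℕ) :
    regret r q n ≤ 2 * Real.log (n + 2) := by
  have : Nonempty (Fin n → Fin d) := ⟨fun _ => ⟨0, by omega⟩⟩
  refine ciSup_le fun f => ?_
  have h1 := h (List.ofFn f)
  rw [List.length_ofFn, ← div_le_iff₀ (hr _)] at h1
  have h2 : ((q (List.ofFn f) / r (List.ofFn f) : ℚ) : ℝ) ≤ ((n : ℝ) + 2) ^ 2 := by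
    have : ((q (List.ofFn f) / r (List.ofFn f) : ℚ) : ℝ) ≤ ((((n : ℚ) + 2) ^ 2 : ℚ) : ℝ) := by
      exact_mod_cast h1
    refine this.trans (le_of_eq ?_)
    push_cast
    ring
  have h3 : (0 : ℝ) < ((q (List.ofFn f) / r (List.ofFn f) : ℚ) : ℝ) := by
    exact_mod_cast div_pos (hq _) (hr _)
  calc Real.log ((q (List.ofFn f) / r (List.ofFn f) : ℚ) : ℝ) ≤ Real.log (((n : ℝ) + 2) ^ 2) :=
        Real.log_le_log h3 h2
    _ = 2 * Real.log (n + 2) := by rw [Real.log_pow]; norm_num

/-- For every alphabet size `d ≥ 2` there is a time-consistent `r`, positive on all strings, which is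
computable in polynomial time and has regret at most `2 ln(n + 2)`, for all `n`, against the triple
uniform estimator, and also against the normalized one. (As `r` is positive, all the quotients in the
definition of the regret are quotients by positive numbers.) -/
theorem result (d : ℕ) (hd : 2 ≤ d) : ∃ r : List (Fin d) → ℚ,
    IsOnline r ∧ (∀ x, 0 < r x) ∧ PolyTimeComputable r ∧
    (∀ n : ℕ, regret r tripleUniform n ≤ 2 * Real.log (n + 2)) ∧
    (∀ n : ℕ, regret r tripleUniformNormalized n ≤ 2 * Real.log (n + 2)) := by
  have hd1 : 1 ≤ d := by omega
  have hpos := mix_pos (d := d) tun_nonneg tun_mass d.factorial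
  have hlow := mix_lower (d := d) tun_nonneg tun_mass d.factorial (tun_le_lap hd1)
  have htu : ∀ x : List (Fin d), 0 < tripleUniform x := by
    intro x
    unfold tripleUniform
    have h1 : 0 < Nat.multinomial Finset.univ fun i : Fin d => x.count i := Nat.multinomial_pos _ _
    have h2 : 0 < Nat.multinomial (Finset.range (x.length + 1)) (mult x) := Nat.multinomial_pos _ _
    have h3 : 0 < Fintype.card (Nat.Partition x.length) := Fintype.card_pos
    positivity
  refine ⟨mix tripleUniformNormalized d.factorial, mix_online hd1 tun_nonneg tun_mass _, hpos,
    ?_, ?_, ?_⟩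
  · obtain ⟨P, Q, h1, h2⟩ := poly_mix (d := d) tripleUniformNormalized d.factorial hpos
    refine ⟨P, Q, ?_, h2⟩
    obtain ⟨tm⟩ := toTM h1
    have e : (bits : List (Fin d) → List Bool) =
        fun x : List (Fin d) => bits (List.map Fin.val x) := by
      funext x
      change (T.ofList (x.map toT)).enc = (T.ofList ((List.map Fin.val x).map toT)).enc
      rw [List.map_map]
      rfl
    rw [e] at tm
    exact ⟨tm⟩
  · exact regret_le hd hpos htu fun x => (tu_le x).trans (hlow x)
  · exact regret_le hd hpos (fun x => (htu x).trans_le (tu_le x)) hlow

end Pool.Agent.Results.MP_013ca9_lc.GoodTuringOnline
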